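import Pool.Agent.Dec45.Final

namespace Pool.Agent.Results.MP_82a190_co.TetrahedronThreshold

open Finset Pool.Agent.Dec45

/-- The decomposition threshold of the complete 3-graph on four vertices is at least 8/9. -/
theorem result :
    (8 / 9 : ℝ) ≤ sInf {δ : ℝ | 0 ≤ δ ∧ δ ≤ 1 ∧ ∃ n₀ : ℕ, ∀ n : ℕ, n₀ ≤ n →
      ∀ G : Finset (Finset (Fin n)),
        (∀ e ∈ G, e.card = 3) →
        (∀ S : Finset (Fin n), S.card = 3 - 1 →
          δ * (n : ℝ) ≤ ((G.filter (fun e => S ⊆ e)).card : ℝ)) →
        (∀ S : Finset (Fin n), S.card < 3 →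
          (4 - S.card).choose (3 - S.card) ∣ (G.filter (fun e => S ⊆ e)).card) →
        ∃ D : Finset (Finset (Fin n)),
          (∀ A ∈ D, A.card = 4 ∧ ∀ e : Finset (Fin n), e ⊆ A → e.card = 3 → e ∈ G) ∧
          ∀ e ∈ G, (D.filter (fun A => e ⊆ A)).card = 1} := by
  apply le_csInf
  · -- the set contains 1
    refine ⟨1, zero_le_one, le_rfl, 2, ?_⟩
    intro n hn G hG hdeg _
    exfalso
    -- choose a pair
    have h2 : ∃ S : Finset (Fin n), S.card = 2 := by
      have : 2 ≤ (univ : Finset (Fin n)).card := by simpa using hn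
      obtain ⟨S, _, hS⟩ := exists_subset_card_eq this
      exact ⟨S, hS⟩
    obtain ⟨S, hS⟩ := h2
    have h3 := hdeg S (by simpa using hS)
    rw [one_mul] at h3
    have h4 : n ≤ (G.filter (fun e => S ⊆ e)).card := by exact_mod_cast h3
    -- every edge containing S is insert x S with x ∉ S
    have h5 : G.filter (fun e => S ⊆ e) ⊆ (univ \ S).image (fun x => insert x S) := by
      intro e he
      rw [mem_filter] at he
      have hc : e.card = 3 := hG e he.1
      have hd : (e \ S).card = 1 := by
        rw [card_sdiff_of_subset he.2, hc, hS]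
      obtain ⟨x, hx⟩ := card_eq_one.mp hd
      rw [mem_image]
      refine ⟨x, ?_, ?_⟩
      · have : x ∈ e \ S := by rw [hx]; exact mem_singleton_self x
        rw [mem_sdiff] at this ⊢
        exact ⟨mem_univ x, this.2⟩
      · ext y
        rw [mem_insert]
        constructor
        · rintro (rfl | h)
          · have : y ∈ e \ S := by rw [hx]; exact mem_singleton_self y
            exact (mem_sdiff.mp this).1
          · exact he.2 h
        · intro hy
          by_cases hyS : y ∈ S
          · exact Or.inr hyS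
          · left
            have : y ∈ e \ S := mem_sdiff.mpr ⟨hy, hyS⟩
            rw [hx] at this
            exact mem_singleton.mp this
    have h6 := (card_le_card h5).trans card_image_le
    have h7 : (univ \ S : Finset (Fin n)).card = n - 2 := by
      rw [card_sdiff_of_subset (subset_univ S), card_univ, Fintype.card_fin, hS]
    omega
  · rintro δ ⟨hδ0, hδ1, n₀, h⟩
    by_contra hlt
    rw [not_le] at hlt
    -- choose t large
    have hpos : 0 < 16 - 18 * δ := by linarith
    obtain ⟨m, hm⟩ := exists_nat_ge (8 / (16 - 18 * δ))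
    let t : ℕ := m + n₀
    obtain ⟨s⟩ := exists_setup t
    have hn : n₀ ≤ 18 * (t + 7) := by omega
    have hδt : δ * ((18 * (t + 7) : ℕ) : ℝ) ≤ 16 * ((t : ℝ) + 7) - 8 := by
      have h1 : 8 ≤ (m : ℝ) * (16 - 18 * δ) := by
        rwa [div_le_iff₀ hpos] at hm
      have h2 : (m : ℝ) * (16 - 18 * δ) ≤ ((t : ℝ) + 7) * (16 - 18 * δ) := by
        apply mul_le_mul_of_nonneg_right _ hpos.le
        have : (m : ℝ) ≤ (t : ℝ) := by exact_mod_cast Nat.le_add_right m n₀
        linarith
      push_cast
      nlinarith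
    have hdeg : ∀ S : Finset (Fin (18 * (t + 7))), S.card = 3 - 1 →
        δ * ((18 * (t + 7) : ℕ) : ℝ) ≤ ((s.G.filter (fun e => S ⊆ e)).card : ℝ) := by
      intro S hS
      have hS2 : S.card = 2 := by simpa using hS
      obtain ⟨u, v, huv, rfl⟩ := card_eq_two.mp hS2
      have h1 := s.codegree u v huv
      have h2 : ((8 * (2 * (t + 7)) : ℕ) : ℝ)
          ≤ ((s.G.filter (fun e => {u, v} ⊆ e)).card + 8 : ℕ) := by
        exact_mod_cast h1
      push_cast at h2 hδt ⊢
      linarith
    have hdiv : ∀ S : Finset (Fin (18 * (t + 7))), S.card < 3 →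
        (4 - S.card).choose (3 - S.card) ∣ (s.G.filter (fun e => S ⊆ e)).card := by
      intro S hS
      exact s.divisible (by omega) S hS
    obtain ⟨D, hD1, hD2⟩ := h (18 * (t + 7)) hn s.G (fun e he => s.G_card e he) hdeg hdiv
    exact s.no_decomposition D hD1 hD2

end Pool.Agent.Results.MP_82a190_co.TetrahedronThreshold
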