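import Pool.Agent.FD39.Final2
import Pool.Agent.FD39.NumAll
import Pool.Agent.FD39.Top
import Pool.Agent.HY24.Lat

set_option autoImplicit false

/-! For every even `k ≥ 2000` the decomposition threshold of the complete `k`-graph on `k + 1` vertices is
strictly larger than its fractional decomposition threshold. -/

namespace Pool.Agent.Results.MP_82a190_co.ThresholdGap

/-- `G` is a `k`-graph on the vertex set `Fin n` (given by its set of edges) -/
def IsKGraph (k : ℕ) {n : ℕ} (G : Finset (Finset (Fin n))) : Prop := ∀ e ∈ G, e.card = k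

/-- the number of edges of `G` containing `S` -/
def deg {n : ℕ} (G : Finset (Finset (Fin n))) (S : Finset (Fin n)) : ℕ :=
  (G.filter (fun e => S ⊆ e)).card

/-- every `(k-1)`-set of vertices lies in at least `δ n` edges of `G` -/
def MinCodegGe (k : ℕ) (δ : ℝ) {n : ℕ} (G : Finset (Finset (Fin n))) : Prop :=
  ∀ S : Finset (Fin n), S.card = k - 1 → δ * (n : ℝ) ≤ (deg G S : ℝ)

/-- `A` is the vertex set of a copy of the complete `k`-graph on `r` vertices in `G` -/
def IsClique (r k : ℕ) {n : ℕ} (G : Finset (Finset (Fin n))) (A : Finset (Fin n)) : Prop :=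
  A.card = r ∧ ∀ e : Finset (Fin n), e ⊆ A → e.card = k → e ∈ G

/-- `G` is `K_r^k`-divisible: for every `i < k`, the number of edges of `K_r^k` containing a given `i`-set,
which is `(r - i).choose (k - i)`, divides the number of edges of `G` containing any given `i`-set -/
def Divisible (r k : ℕ) {n : ℕ} (G : Finset (Finset (Fin n))) : Prop :=
  ∀ S : Finset (Fin n), S.card < k → (r - S.card).choose (k - S.card) ∣ deg G S

/-- `G` has a `K_r^k`-decomposition: a set of cliques such that every edge lies in exactly one of them -/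
def HasDecomp (r k : ℕ) {n : ℕ} (G : Finset (Finset (Fin n))) : Prop :=
  ∃ D : Finset (Finset (Fin n)), (∀ A ∈ D, IsClique r k G A) ∧
    ∀ e ∈ G, (D.filter (fun A => e ⊆ A)).card = 1

/-- `G` has a fractional `K_r^k`-decomposition: nonnegative weights on the cliques such that for every edge
the weights of the cliques containing it sum to `1` -/
def HasFracDecomp (r k : ℕ) {n : ℕ} (G : Finset (Finset (Fin n))) : Prop :=
  ∃ w : Finset (Fin n) → ℝ, (∀ A, 0 ≤ w A) ∧ (∀ A, w A ≠ 0 → IsClique r k G A) ∧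
    ∀ e ∈ G, ∑ A ∈ (Finset.univ : Finset (Finset (Fin n))).filter (fun A => e ⊆ A), w A = 1

/-- the decomposition threshold of `K_r^k` -/
noncomputable def decompThreshold (r k : ℕ) : ℝ :=
  sInf {δ : ℝ | 0 ≤ δ ∧ δ ≤ 1 ∧ ∃ n₀ : ℕ, ∀ n : ℕ, n₀ ≤ n → ∀ G : Finset (Finset (Fin n)),
    IsKGraph k G → MinCodegGe k δ G → Divisible r k G → HasDecomp r k G}

/-- the fractional decomposition threshold of `K_r^k` -/
noncomputable def fracThreshold (r k : ℕ) : ℝ :=
  sInf {δ : ℝ | 0 ≤ δ ∧ δ ≤ 1 ∧ ∃ n₀ : ℕ, ∀ n : ℕ, n₀ ≤ n → ∀ G : Finset (Finset (Fin n)),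
    IsKGraph k G → MinCodegGe k δ G → HasFracDecomp r k G}

/-- For every even `k ≥ 2000`:
fractional threshold of `K_{k+1}^k` `≤ 1 - 4k/2^k < 1 - 2k/(2^k - 1) ≤` decomposition threshold of `K_{k+1}^k`. -/
theorem result (k : ℕ) (hk : 2000 ≤ k) (hke : Even k) :
    fracThreshold (k + 1) k ≤ 1 - 4 * (k : ℝ) / 2 ^ k ∧
    1 - 4 * (k : ℝ) / 2 ^ k < 1 - 2 * (k : ℝ) / (2 ^ k - 1) ∧
    1 - 2 * (k : ℝ) / (2 ^ k - 1) ≤ decompThreshold (k + 1) k := by
  have hk0 : (2000 : ℝ) ≤ (k : ℝ) := by exact_mod_cast hk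
  have hP : 32 * (k : ℝ) ^ 2 ≤ 2 ^ k := by
    have h := Pool.Agent.FD39.powAll k hk
    have h' : (32 * 2 ^ 53 * (k : ℝ) ^ 2) ≤ 2 ^ k := by exact_mod_cast h
    have h0 : (0 : ℝ) ≤ (k : ℝ) ^ 2 := by positivity
    refine le_trans ?_ h'
    norm_num
    linarith
  have hP1 : 4 * (k : ℝ) ≤ 2 ^ k := by nlinarith
  have hP2 : (2 : ℝ) < 2 ^ k := by nlinarith
  refine ⟨?_, ?_, ?_⟩
  · refine Pool.Agent.FD39.frac_le_mu k 53 (4 * (k : ℝ) / 2 ^ k) (by positivity) ?_ (by omega) (by omega)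
      (Pool.Agent.FD39.numAll k hk)
    rw [div_le_one (by positivity)]
    exact hP1
  · generalize (2 : ℝ) ^ k = P at hP2
    have h1 : (0 : ℝ) < P := by linarith
    have h2 : (0 : ℝ) < P - 1 := by linarith
    have h3 : 2 * (k : ℝ) / (P - 1) < 4 * (k : ℝ) / P := by
      rw [div_lt_div_iff₀ h2 h1]
      nlinarith
    linarith
  · refine le_csInf ?_ ?_
    · refine ⟨1, zero_le_one, le_rfl, k, ?_⟩
      intro n hn G hG hdeg _
      exfalso
      obtain ⟨S, hS, hlt3⟩ := Pool.Agent.FD39.deg_lt k n (by omega) hn G hG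
      have h1 := hdeg S hS
      rw [one_mul] at h1
      have h2 : n ≤ (G.filter (fun e => S ⊆ e)).card := by exact_mod_cast h1
      omega
    · rintro δ ⟨_, _, n₀, hn₀⟩
      by_contra hlt2
      rw [not_le] at hlt2
      obtain ⟨n, hn, G, hG, hdeg, hdiv, hD⟩ := Pool.Agent.HY24.lattice k (by omega) hke δ hlt2 n₀
      exact hD (hn₀ n hn G hG hdeg hdiv)

end Pool.Agent.Results.MP_82a190_co.ThresholdGap
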